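import Pool.Agent.W670.ML.Defs2

set_option autoImplicit false

/-!
# ML2-DE: the trace identity in a compositum
-/

namespace Pool.Agent.W160.ML2

open Pool.Agent.W670.ML

open Classical in
/-- dual bases and embeddings -/
theorem dual_emb {K B Ω : Type} [Field K] [Field B] [Field Ω] [Algebra K B] [Algebra K Ω]
    [FiniteDimensional K B] [Algebra.IsSeparable K B] [IsAlgClosed Ω] {s : ℕ} (β γ : Fin s → B)
    (hy : ∀ y : B, y = ∑ j, Algebra.trace K B (γ j * y) • β j) (σ σ' : B →ₐ[K] Ω) :
    ∑ j, σ (γ j) * σ' (β j) = if σ = σ' then 1 else 0 := by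
  have hLI : LinearIndependent Ω (AlgHom.toLinearMap : (B →ₐ[K] Ω) → B →ₗ[K] Ω) :=
    linearIndependent_toLinearMap K B Ω
  rw [Fintype.linearIndependent_iff] at hLI
  have h1 := hLI (fun σ => ∑ j, σ (γ j) * σ' (β j) - if σ = σ' then 1 else 0) (by
    ext y
    rw [LinearMap.sum_apply, LinearMap.zero_apply]
    simp only [LinearMap.smul_apply, AlgHom.toLinearMap_apply, smul_eq_mul, sub_mul]
    rw [Finset.sum_sub_distrib]
    have h2 : ∑ τ : B →ₐ[K] Ω, (if τ = σ' then (1 : Ω) else 0) * τ y = σ' y := by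
      rw [Finset.sum_eq_single σ']
      · rw [if_pos rfl, one_mul]
      · intro τ _ hτ
        rw [if_neg hτ, zero_mul]
      · intro h
        exact absurd (Finset.mem_univ _) h
    have h3 : ∑ τ : B →ₐ[K] Ω, (∑ j, τ (γ j) * σ' (β j)) * τ y = σ' y := by
      conv_rhs => rw [hy y, map_sum]
      have h4 : ∀ j, σ' (Algebra.trace K B (γ j * y) • β j) =
          (∑ τ : B →ₐ[K] Ω, τ (γ j * y)) * σ' (β j) := by
        intro j
        rw [map_smul, Algebra.smul_def, trace_eq_sum_embeddings Ω]
      rw [Finset.sum_congr rfl fun j _ => h4 j]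
      simp only [Finset.sum_mul]
      rw [Finset.sum_comm]
      refine Finset.sum_congr rfl fun j _ => Finset.sum_congr rfl fun τ _ => ?_
      rw [map_mul]
      ring
    rw [h2, h3, sub_self]) σ
  exact sub_eq_zero.1 h1

theorem de : S_DE := by
  intro K A B M _ _ _ _ _ _ _ _ _ _ _ _ _ _ _ hgen s β γ hy x
  classical
  have fd1 : FiniteDimensional A M := Module.Finite.of_restrictScalars_finite ℚ A M
  have fd2 : FiniteDimensional K B := Module.Finite.of_restrictScalars_finite ℚ K B
  obtain ⟨ι, hι⟩ : ∃ ι : B →ₐ[K] AlgebraicClosure M,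
      ∀ b, ι b = algebraMap M (AlgebraicClosure M) (algebraMap B M b) :=
    ⟨(IsScalarTower.toAlgHom K M (AlgebraicClosure M)).comp (IsScalarTower.toAlgHom K B M),
      fun _ => rfl⟩
  obtain ⟨r, hr⟩ : ∃ r : (M →ₐ[A] AlgebraicClosure M) → (B →ₐ[K] AlgebraicClosure M),
      ∀ τ b, r τ b = τ (algebraMap B M b) :=
    ⟨fun τ => (τ.restrictScalars K).comp (IsScalarTower.toAlgHom K B M), fun _ _ => rfl⟩
  have huniq : ∀ τ : M →ₐ[A] AlgebraicClosure M, ι = r τ →
      τ = IsScalarTower.toAlgHom A M (AlgebraicClosure M) := by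
    intro τ hτ
    obtain ⟨F, hF⟩ : ∃ F : IntermediateField K M, ∀ z, z ∈ F ↔
        τ z = algebraMap M (AlgebraicClosure M) z := by
      refine ⟨{ AlgHom.equalizer (τ.restrictScalars K)
        (IsScalarTower.toAlgHom K M (AlgebraicClosure M)) with
        inv_mem' := ?_ }, fun z => Iff.rfl⟩
      intro z hz
      have hz' : τ z = algebraMap M (AlgebraicClosure M) z := hz
      show τ z⁻¹ = algebraMap M (AlgebraicClosure M) z⁻¹
      rw [map_inv₀, map_inv₀, hz']
    have h1 := hgen F (fun a => by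
      rw [hF, AlgHom.commutes, ← IsScalarTower.algebraMap_apply]) (fun b => by
      rw [hF, ← hr, ← hτ, hι])
    ext z
    have h2 : z ∈ F := by
      rw [h1]
      exact IntermediateField.mem_top
    rw [hF] at h2
    exact h2
  apply (algebraMap M (AlgebraicClosure M)).injective
  rw [map_sum]
  have h1 : ∀ j, algebraMap M (AlgebraicClosure M)
      (algebraMap A M (Algebra.trace A M (x * algebraMap B M (β j))) * algebraMap B M (γ j)) =
      ∑ τ : M →ₐ[A] AlgebraicClosure M, τ x * (ι (γ j) * r τ (β j)) := by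
    intro j
    rw [map_mul, ← IsScalarTower.algebraMap_apply, trace_eq_sum_embeddings (AlgebraicClosure M),
      Finset.sum_mul]
    refine Finset.sum_congr rfl fun τ _ => ?_
    rw [map_mul, hι, hr]
    ring
  rw [Finset.sum_congr rfl fun j _ => h1 j, Finset.sum_comm]
  have h2 : ∀ τ : M →ₐ[A] AlgebraicClosure M, ∑ j, τ x * (ι (γ j) * r τ (β j)) =
      if τ = IsScalarTower.toAlgHom A M (AlgebraicClosure M) then
        algebraMap M (AlgebraicClosure M) x else 0 := by
    intro τ
    rw [← Finset.mul_sum, dual_emb β γ hy]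
    by_cases h : ι = r τ
    · rw [if_pos h, mul_one]
      have h3 := huniq τ h
      rw [if_pos h3, h3]
      rfl
    · rw [if_neg h, mul_zero, if_neg]
      intro h3
      apply h
      ext b
      rw [hι, hr, h3]
      rfl
  rw [Finset.sum_congr rfl fun τ _ => h2 τ, Finset.sum_ite_eq' , if_pos (Finset.mem_univ _)]

end Pool.Agent.W160.ML2
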